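import Mathlib
import Pool.Agent.H289R2.NormLayerN

open Filter

namespace Pool.Agent.Results.MP_94d023_co.ExponentSixth

/-- `X ⊆ F_5^n` contains no `x, x+d, x+2d, x+3d` with `d ≠ 0`. -/
def FourAPFree (n : ℕ) (X : Finset (Fin n → ZMod 5)) : Prop :=
  ∀ x d : Fin n → ZMod 5, x ∈ X → x + d ∈ X → x + 2 • d ∈ X → x + 3 • d ∈ X → d = 0

/-- The power saving `r_4(F_5^n) ≪ N^(1-c)`, `N = 5^n`: for some `C` every 4-AP-free set in
`F_5^n`, `n ≥ 1`, has at most `C (5^n)^(1-c)` elements. -/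
def PowerSaving (c : ℝ) : Prop :=
  ∃ C : ℝ, ∀ n : ℕ, 1 ≤ n → ∀ X : Finset (Fin n → ZMod 5), FourAPFree n X →
    (X.card : ℝ) ≤ C * ((5 : ℝ) ^ n) ^ (1 - c)

lemma cases_ne_four : ∀ s : ZMod 5, s ≠ 4 → s = 0 ∨ s = 1 ∨ s = 2 ∨ s = 3 := by decide

/-- No power saving with exponent `c > 1/6` is possible. -/
theorem result (c : ℝ) (h : PowerSaving c) : c ≤ 1 / 6 := by
  classical
  obtain ⟨C, hC⟩ := h
  by_contra hc
  push Not at hc
  have key : ∀ m : ℕ, 1 ≤ m → ((5 : ℝ) ^ (6 * c - 1)) ^ m ≤ C := by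
    intro m hm
    have : Fact (Nat.Prime 5) := ⟨by norm_num⟩
    obtain ⟨A, hA, hline⟩ := H289R2.NormLayerN.exists_set (ZMod 5) 3 (6 * m) m (by norm_num)
      (by omega)
    have hfree : FourAPFree (6 * m) A := by
      intro x d h0 h1 h2 h3
      by_contra hd
      have e2 : (2 : ZMod 5) • d = 2 • d := by
        rw [← Nat.cast_smul_eq_nsmul (ZMod 5)]
        norm_num
      have e3 : (3 : ZMod 5) • d = 3 • d := by
        rw [← Nat.cast_smul_eq_nsmul (ZMod 5)]
        norm_num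
      have := hline x d hd (Finset.univ.erase 4) (by
        intro s hs
        rcases cases_ne_four s (Finset.ne_of_mem_erase hs) with rfl | rfl | rfl | rfl
        · simpa using h0
        · simpa using h1
        · rw [e2]
          exact h2
        · rw [e3]
          exact h3)
      rw [Finset.card_erase_of_mem (Finset.mem_univ _), Finset.card_univ, ZMod.card] at this
      omega
    have h1 := hC (6 * m) (by omega) A hfree
    have hcard : ((5 : ℝ) ^ (5 * m)) ≤ (A.card : ℝ) := by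
      rw [ZMod.card] at hA
      have e : 5 ^ (6 * m) = 5 ^ m * 5 ^ (5 * m) := by
        rw [← pow_add]
        congr 1
        omega
      rw [e] at hA
      have : 5 ^ (5 * m) ≤ A.card := Nat.le_of_mul_le_mul_left hA (by positivity)
      exact_mod_cast this
    have h2 : (5 : ℝ) ^ (5 * m) ≤ C * ((5 : ℝ) ^ (6 * m)) ^ (1 - c) := hcard.trans h1
    have e1 : (5 : ℝ) ^ (5 * m) = (5 : ℝ) ^ ((5 : ℝ) * m) := by
      rw [← Real.rpow_natCast]
      push_cast
      rfl
    have e2 : ((5 : ℝ) ^ (6 * m)) ^ (1 - c) = (5 : ℝ) ^ ((6 : ℝ) * m * (1 - c)) := by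
      rw [← Real.rpow_natCast, ← Real.rpow_mul (by norm_num)]
      push_cast
      rfl
    rw [e1, e2] at h2
    have hpos : (0 : ℝ) < (5 : ℝ) ^ ((6 : ℝ) * m * (1 - c)) := Real.rpow_pos_of_pos (by norm_num) _
    rw [← div_le_iff₀ hpos, ← Real.rpow_sub (by norm_num)] at h2
    rw [← Real.rpow_natCast, ← Real.rpow_mul (by norm_num)]
    have e3 : (5 : ℝ) * m - 6 * m * (1 - c) = (6 * c - 1) * m := by ring
    rwa [e3] at h2
  have hgt : 1 < (5 : ℝ) ^ (6 * c - 1) := Real.one_lt_rpow (by norm_num) (by linarith)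
  have htend := tendsto_pow_atTop_atTop_of_one_lt hgt
  obtain ⟨m, hm1, hm2⟩ := ((htend.eventually_gt_atTop C).and (eventually_ge_atTop 1)).exists
  exact absurd (key m hm2) (not_le.mpr hm1)

end Pool.Agent.Results.MP_94d023_co.ExponentSixth
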